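import Mathlib

/-!
# Multiplicity of `-1` in Eulerian polynomials of oriented complete multipartite graphs

For every orientation `D` of a complete multipartite graph with exactly `r` parts of odd
size, the multiplicity of `-1` as a root of the Eulerian polynomial `A_D(t)` is `⌊r/2⌋`.
-/

open Equiv Polynomial Finset

namespace Pool.Agent.Results.MP_a2af9e_co.EulerianMultipartite

/-- The number of `D`-descents of the permutation `σ` of the vertex set `Fin n`:
the number of arcs `u → v` of `D` with `σ u > σ v`. -/
def des {n : ℕ} (D : Fin n → Fin n → Prop) [DecidableRel D] (σ : Perm (Fin n)) : ℕ :=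
  (univ.filter (fun p : Fin n × Fin n => D p.1 p.2 ∧ σ p.2 < σ p.1)).card

/-- The Eulerian polynomial `A_D(t) = ∑_σ t ^ des_D(σ)` of the digraph `D`, in `ℤ[t]`. -/
noncomputable def eulerianPoly {n : ℕ} (D : Fin n → Fin n → Prop) [DecidableRel D] : ℤ[X] :=
  ∑ σ : Perm (Fin n), X ^ des D σ

/-- `D` is an orientation of the complete multipartite graph whose parts are the
nonempty fibres of `part`: there is no arc between two vertices of one part, and
between two vertices of different parts there is an arc in exactly one direction. -/
structure IsOrientation {n : ℕ} {ι : Type*} (part : Fin n → ι) (D : Fin n → Fin n → Prop) :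
    Prop where
  /-- no arc inside a part -/
  inside : ∀ u v, part u = part v → ¬ D u v
  /-- vertices in different parts are joined by an arc -/
  across : ∀ u v, part u ≠ part v → (D u v ∨ D v u)
  /-- at most one arc between two vertices -/
  asymm : ∀ u v, ¬ (D u v ∧ D v u)

/-- The number of parts (fibres of `part`) of odd size. -/
def numOddParts {n : ℕ} {ι : Type*} [Fintype ι] [DecidableEq ι] (part : Fin n → ι) : ℕ :=
  (univ.filter (fun i : ι => Odd (univ.filter (fun v : Fin n => part v = i)).card)).card

/-! ### Counting minimal matchings modulo two -/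

section Parity

variable {V ι : Type*} [Fintype V] [DecidableEq V] [DecidableEq ι]

/-- `f` encodes a (near-)perfect matching of `S` using as few edges between different parts
as possible: it is an involution supported in `S`, with at most one fixed point in `S`, and
no part contains two of the vertices which are unmatched or matched outside their part. -/
def Conf (part : V → ι) (S : Finset V) (f : Perm V) : Prop :=
  (∀ x, f (f x) = x) ∧ (∀ x, x ∉ S → f x = x) ∧
  (∀ x ∈ S, ∀ y ∈ S, f x = x → f y = y → x = y) ∧
  (∀ x ∈ S, ∀ y ∈ S, (f x = x ∨ part (f x) ≠ part x) → (f y = y ∨ part (f y) ≠ part y) →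
    part x = part y → x = y)

open Classical in
theorem odd_conf (part : V → ι) (N : ℕ) : ∀ S : Finset V, S.card ≤ N →
    Odd (univ.filter (fun f : Perm V => Conf part S f)).card := by
  induction N with
  | zero =>
    intro S hS
    have hS' : S = ∅ := by simpa using hS
    subst hS'
    have : (univ.filter (fun f : Perm V => Conf part ∅ f)) = {1} := by
      ext f
      simp only [mem_filter, mem_univ, true_and, mem_singleton]
      constructor
      · rintro ⟨_, h2, _⟩
        ext x
        simpa using h2 x (by simp)
      · rintro rfl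
        refine ⟨by simp, by simp, by simp, by simp⟩
    rw [this]
    simp
  | succ N ih =>
    intro S hS
    by_cases hS1 : S.card ≤ 1
    · -- at most one element
      have : (univ.filter (fun f : Perm V => Conf part S f)) = {1} := by
        ext f
        simp only [mem_filter, mem_univ, true_and, mem_singleton]
        constructor
        · rintro ⟨_, h2, _⟩
          ext x
          by_cases hx : x ∈ S
          · by_contra hne
            have hne' : f x ≠ x := by simpa using hne
            have h3 : f x ∈ S := by
              by_contra h4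
              exact hne' (f.injective (h2 _ h4))
            exact hne' ((Finset.card_le_one.mp hS1) _ h3 _ hx)
          · simpa using h2 x hx
        · rintro rfl
          refine ⟨by simp, by simp, ?_, ?_⟩
          · intro x hx y hy _ _
            exact (Finset.card_le_one.mp hS1) _ hx _ hy
          · intro x hx y hy _ _ _
            exact (Finset.card_le_one.mp hS1) _ hx _ hy
      rw [this]
      simp
    · push Not at hS1
      -- choose a pair
      have hpair : ∃ u ∈ S, ∃ v ∈ S, u ≠ v ∧
          (part u = part v ∨ ∀ x ∈ S, ∀ y ∈ S, part x = part y → x = y) := by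
        by_cases hinj : ∀ x ∈ S, ∀ y ∈ S, part x = part y → x = y
        · obtain ⟨u, hu, v, hv, huv⟩ := Finset.one_lt_card.mp hS1
          exact ⟨u, hu, v, hv, huv, Or.inr hinj⟩
        · push Not at hinj
          obtain ⟨u, hu, v, hv, hp, huv⟩ := hinj
          exact ⟨u, hu, v, hv, huv, Or.inl hp⟩
      obtain ⟨u, hu, v, hv, huv, hcase⟩ := hpair
      set τ : Perm V := Equiv.swap u v with hτ
      have hττ : ∀ x, τ (τ x) = x := fun x => Equiv.swap_apply_self u v x
      have hτu : τ u = v := Equiv.swap_apply_left u v
      have hτv : τ v = u := Equiv.swap_apply_right u v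
      have hτn : ∀ x, x ≠ u → x ≠ v → τ x = x := fun x h1 h2 =>
        Equiv.swap_apply_of_ne_of_ne h1 h2
      have hτS : ∀ x, x ∈ S → τ x ∈ S := by
        intro x hx
        by_cases h1 : x = u
        · subst h1; rw [hτu]; exact hv
        · by_cases h2 : x = v
          · subst h2; rw [hτv]; exact hu
          · rw [hτn x h1 h2]; exact hx
      have hτS' : ∀ x, x ∉ S → τ x = x := by
        intro x hx
        apply hτn
        · rintro rfl; exact hx hu
        · rintro rfl; exact hx hv
      -- closure under conjugation
      have hconj : ∀ f : Perm V, Conf part S f → Conf part S (τ * f * τ) := by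
        rintro f ⟨h1, h2, h3, h4⟩
        have key : ∀ x, (τ * f * τ) x = τ (f (τ x)) := fun x => rfl
        refine ⟨?_, ?_, ?_, ?_⟩
        · intro x
          simp only [key, hττ, h1]
        · intro x hx
          rw [key, hτS' x hx, h2 x hx, hτS' x hx]
        · intro x hx y hy hfx hfy
          rw [key] at hfx hfy
          have hfx' : f (τ x) = τ x := by rw [← hττ (f (τ x)), hfx]
          have hfy' : f (τ y) = τ y := by rw [← hττ (f (τ y)), hfy]
          have := h3 _ (hτS x hx) _ (hτS y hy) hfx' hfy'
          exact τ.injective this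
        · rcases hcase with hp | hinj
          · have hpτ : ∀ x, part (τ x) = part x := by
              intro x
              by_cases h1 : x = u
              · subst h1; rw [hτu, hp]
              · by_cases h2 : x = v
                · subst h2; rw [hτv, hp]
                · rw [hτn x h1 h2]
            intro x hx y hy hfx hfy hxy
            have hsp : ∀ z, ((τ * f * τ) z = z ∨ part ((τ * f * τ) z) ≠ part z) →
                (f (τ z) = τ z ∨ part (f (τ z)) ≠ part (τ z)) := by
              intro z hz
              rw [key, hpτ] at hz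
              rcases hz with hz | hz
              · left
                rw [← hττ (f (τ z)), hz]
              · right
                rw [hpτ]; exact hz
            have := h4 _ (hτS x hx) _ (hτS y hy) (hsp x hfx) (hsp y hfy)
              (by rw [hpτ, hpτ]; exact hxy)
            exact τ.injective this
          · intro x hx y hy _ _ hxy
            exact hinj x hx y hy hxy
      -- the configurations with `f u ≠ v` come in pairs
      have heven : Even (univ.filter (fun f : Perm V => Conf part S f ∧ f u ≠ v)).card := by
        have hz : (((univ.filter (fun f : Perm V => Conf part S f ∧ f u ≠ v)).card : ℕ) :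
            ZMod 2) = 0 := by
          rw [Finset.cast_card]
          refine Finset.sum_involution (fun f _ => τ * f * τ) ?_ ?_ ?_ ?_
          · intro f _
            decide
          · intro f hf _ heq
            simp only [mem_filter, mem_univ, true_and] at hf
            obtain ⟨⟨h1, h2, h3, h4⟩, hne⟩ := hf
            have e1 : τ (f (τ u)) = f u := by
              have := congrArg (fun g : Perm V => g u) heq
              simpa using this
            rw [hτu] at e1
            -- τ (f v) = f u
            by_cases c1 : f v = u
            · exact hne (by rw [← c1, h1])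
            · by_cases c2 : f v = v
              · rw [c2, hτv] at e1
                exact huv (h3 u hu v hv e1.symm c2)
              · rw [hτn _ c1 c2] at e1
                exact huv (f.injective e1).symm
          · intro f hf
            simp only [mem_filter, mem_univ, true_and] at hf ⊢
            refine ⟨hconj f hf.1, ?_⟩
            intro h
            have h' : τ (f v) = v := by
              have : (τ * f * τ) u = τ (f (τ u)) := rfl
              rw [this, hτu] at h
              exact h
            have h'' : f v = u := by rw [← hττ (f v), h', hτv]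
            exact hf.2 (by rw [← h'', hf.1.1])
          · intro f _
            ext x
            simp [hττ]
        exact (ZMod.natCast_eq_zero_iff_even).mp hz
      -- the others are in bijection with configurations on `S \ {u, v}`
      have hcard : (univ.filter (fun f : Perm V => Conf part S f ∧ f u = v)).card =
          (univ.filter (fun f : Perm V => Conf part (S \ {u, v}) f)).card := by
        refine Finset.card_nbij' (fun f => f * τ) (fun f => f * τ) ?_ ?_ ?_ ?_
        · intro f hf
          simp only [coe_filter, mem_univ, true_and, Set.mem_ofPred_eq] at hf ⊢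
          obtain ⟨⟨h1, h2, h3, h4⟩, hfu⟩ := hf
          have hfv : f v = u := by rw [← hfu, h1]
          have key : ∀ x, (f * τ) x = f (τ x) := fun x => rfl
          have hku : (f * τ) u = u := by rw [key, hτu, hfv]
          have hkv : (f * τ) v = v := by rw [key, hτv, hfu]
          have hkn : ∀ x, x ≠ u → x ≠ v → (f * τ) x = f x := by
            intro x a b; rw [key, hτn x a b]
          have hfn : ∀ x, x ≠ u → x ≠ v → (f x ≠ u ∧ f x ≠ v) := by
            intro x a b
            constructor
            · intro h; apply b; rw [← h1 x, h, hfu]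
            · intro h; apply a; rw [← h1 x, h, hfv]
          refine ⟨?_, ?_, ?_, ?_⟩
          · intro x
            by_cases a : x = u
            · rw [a, hku, hku]
            · by_cases b : x = v
              · rw [b, hkv, hkv]
              · rw [hkn x a b, hkn _ (hfn x a b).1 (hfn x a b).2, h1]
          · intro x hx
            by_cases a : x = u
            · rw [a, hku]
            · by_cases b : x = v
              · rw [b, hkv]
              · rw [hkn x a b]
                apply h2
                intro hxS
                apply hx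
                simp [hxS, a, b]
          · intro x hx y hy hfx hfy
            simp only [mem_sdiff, mem_insert, mem_singleton, not_or] at hx hy
            rw [hkn x hx.2.1 hx.2.2] at hfx
            rw [hkn y hy.2.1 hy.2.2] at hfy
            exact h3 x hx.1 y hy.1 hfx hfy
          · intro x hx y hy hfx hfy hxy
            simp only [mem_sdiff, mem_insert, mem_singleton, not_or] at hx hy
            rw [hkn x hx.2.1 hx.2.2] at hfx
            rw [hkn y hy.2.1 hy.2.2] at hfy
            exact h4 x hx.1 y hy.1 hfx hfy hxy
        · intro g hg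
          simp only [coe_filter, mem_univ, true_and, Set.mem_ofPred_eq] at hg ⊢
          obtain ⟨h1, h2, h3, h4⟩ := hg
          have hgu : g u = u := h2 u (by simp)
          have hgv : g v = v := h2 v (by simp)
          have key : ∀ x, (g * τ) x = g (τ x) := fun x => rfl
          have hku : (g * τ) u = v := by rw [key, hτu, hgv]
          have hkv : (g * τ) v = u := by rw [key, hτv, hgu]
          have hkn : ∀ x, x ≠ u → x ≠ v → (g * τ) x = g x := by
            intro x a b; rw [key, hτn x a b]
          have hgn : ∀ x, x ≠ u → x ≠ v → (g x ≠ u ∧ g x ≠ v) := by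
            intro x a b
            constructor
            · intro h; apply a; rw [← h1 x, h, hgu]
            · intro h; apply b; rw [← h1 x, h, hgv]
          refine ⟨⟨?_, ?_, ?_, ?_⟩, hku⟩
          · intro x
            by_cases a : x = u
            · rw [a, hku, hkv]
            · by_cases b : x = v
              · rw [b, hkv, hku]
              · rw [hkn x a b, hkn _ (hgn x a b).1 (hgn x a b).2, h1]
          · intro x hx
            have a : x ≠ u := by rintro rfl; exact hx hu
            have b : x ≠ v := by rintro rfl; exact hx hv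
            rw [hkn x a b]
            apply h2
            simp [hx]
          · intro x hx y hy hfx hfy
            have a : x ≠ u := by rintro rfl; rw [hku] at hfx; exact huv hfx.symm
            have b : x ≠ v := by rintro rfl; rw [hkv] at hfx; exact huv hfx
            have a' : y ≠ u := by rintro rfl; rw [hku] at hfy; exact huv hfy.symm
            have b' : y ≠ v := by rintro rfl; rw [hkv] at hfy; exact huv hfy
            rw [hkn x a b] at hfx
            rw [hkn y a' b'] at hfy
            exact h3 x (by simp [hx, a, b]) y (by simp [hy, a', b']) hfx hfy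
          · rcases hcase with hp | hinj
            · intro x hx y hy hfx hfy hxy
              have hns : ∀ z, ((g * τ) z = z ∨ part ((g * τ) z) ≠ part z) → z ≠ u ∧ z ≠ v := by
                intro z hz
                constructor
                · rintro rfl
                  rw [hku] at hz
                  rcases hz with hz | hz
                  · exact huv hz.symm
                  · exact hz hp.symm
                · rintro rfl
                  rw [hkv] at hz
                  rcases hz with hz | hz
                  · exact huv hz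
                  · exact hz hp
              obtain ⟨a, b⟩ := hns x hfx
              obtain ⟨a', b'⟩ := hns y hfy
              rw [hkn x a b] at hfx
              rw [hkn y a' b'] at hfy
              exact h4 x (by simp [hx, a, b]) y (by simp [hy, a', b']) hfx hfy hxy
            · intro x hx y hy _ _ hxy
              exact hinj x hx y hy hxy
        · intro f _
          ext x
          simp [hττ]
        · intro f _
          ext x
          simp [hττ]
      have hsplit : (univ.filter (fun f : Perm V => Conf part S f)).card =
          (univ.filter (fun f : Perm V => Conf part S f ∧ f u = v)).card +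
          (univ.filter (fun f : Perm V => Conf part S f ∧ f u ≠ v)).card := by
        rw [← Finset.card_filter_add_card_filter_not (s := univ.filter
          (fun f : Perm V => Conf part S f)) (fun f => f u = v), Finset.filter_filter,
          Finset.filter_filter]
      rw [hsplit, hcard]
      refine Odd.add_even (ih _ ?_) heven
      have hlt : (S \ {u, v}).card < S.card := by
        apply Finset.card_lt_card
        refine ⟨Finset.sdiff_subset, ?_⟩
        intro h
        have := h hu
        simp at this
      omega

end Parity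


section Positions

/-- The positions `1, …, n`, grouped into `n / 2` consecutive pairs and possibly one last
single position. -/
abbrev P (n : ℕ) := (Fin (n / 2) × Bool) ⊕ Fin (n % 2)

/-- The position with given index. -/
def posEquiv (n : ℕ) : P n ≃ Fin n where
  toFun x := match x with
    | Sum.inl (a, b) => ⟨2 * a.1 + (if b then 1 else 0), by
        have := a.2
        split_ifs <;> omega⟩
    | Sum.inr c => ⟨n - 1, by have := c.2; omega⟩
  invFun i := if h : i.1 / 2 < n / 2 then Sum.inl (⟨i.1 / 2, h⟩, decide (i.1 % 2 = 1))
    else Sum.inr ⟨0, by have := i.2; omega⟩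
  left_inv x := by
    rcases x with ⟨a, b⟩ | c
    · have ha := a.2
      cases b
      · have h1 : (2 * a.1 + 0) / 2 = a.1 := by omega
        have h2 : (2 * a.1 + 0) % 2 = 0 := by omega
        simp [ha]
      · have h1 : (2 * a.1 + 1) / 2 = a.1 := by omega
        have h2 : (2 * a.1 + 1) % 2 = 1 := by omega
        simp [h1, h2, ha]
    · have hc := c.2
      have h1 : ¬ ((n - 1) / 2 < n / 2) := by omega
      simp only [h1, dite_false]
      congr 1
      ext
      simp
      omega
  right_inv i := by
    have hi := i.2
    ext
    by_cases h : i.1 / 2 < n / 2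
    · simp only [h, dite_true]
      by_cases h2 : i.1 % 2 = 1
      · simp [h2]; omega
      · simp [h2]; omega
    · simp only [h, dite_false]
      omega

/-- `x` lies in an earlier block than `y`. -/
def Bef {n : ℕ} : P n → P n → Prop
  | Sum.inl a, Sum.inl b => a.1 < b.1
  | Sum.inl _, Sum.inr _ => True
  | Sum.inr _, _ => False

/-- `x, y` are the first and the second position of a block. -/
def Intra {n : ℕ} (x y : P n) : Prop :=
  ∃ a, x = Sum.inl (a, false) ∧ y = Sum.inl (a, true)

theorem posEquiv_lt {n : ℕ} (x y : P n) :
    posEquiv n x < posEquiv n y ↔ Bef x y ∨ Intra x y := by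
  rcases x with ⟨a, b⟩ | c <;> rcases y with ⟨a', b'⟩ | c'
  · have ha := a.2
    have ha' := a'.2
    have h1 : (Intra (Sum.inl (a, b)) (Sum.inl (a', b') : P n)) ↔
        (a.1 = a'.1 ∧ b = false ∧ b' = true) := by
      constructor
      · rintro ⟨e, h1, h2⟩
        simp only [Sum.inl.injEq, Prod.mk.injEq] at h1 h2
        exact ⟨by rw [h1.1, h2.1], h1.2, h2.2⟩
      · rintro ⟨h1, h2, h3⟩
        refine ⟨a, ?_, ?_⟩
        · rw [h2]
        · rw [h3, Fin.ext h1]
    rw [h1]
    simp only [posEquiv, Bef, Equiv.coe_fn_mk, Fin.mk_lt_mk]
    rw [Fin.lt_def]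
    cases b <;> cases b' <;> simp <;> omega
  · have ha := a.2
    have hc := c'.2
    have h1 : (Bef (Sum.inl (a, b)) (Sum.inr c' : P n)) := trivial
    simp only [h1, true_or, iff_true]
    simp only [posEquiv, Equiv.coe_fn_mk, Fin.mk_lt_mk]
    split_ifs <;> omega
  · have ha' := a'.2
    have hc := c.2
    have h1 : ¬ (Bef (Sum.inr c : P n) (Sum.inl (a', b'))) := fun h => h
    have h2 : ¬ (Intra (Sum.inr c : P n) (Sum.inl (a', b'))) := by
      rintro ⟨e, h1, h2⟩
      simp at h1
    simp only [h1, h2, or_self, iff_false]
    simp only [posEquiv, Equiv.coe_fn_mk, Fin.mk_lt_mk, not_lt]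
    split_ifs <;> omega
  · have h1 : ¬ (Bef (Sum.inr c : P n) (Sum.inr c')) := fun h => h
    have h2 : ¬ (Intra (Sum.inr c : P n) (Sum.inr c')) := by
      rintro ⟨e, h1, h2⟩
      simp at h1
    simp only [h1, h2, or_self, iff_false]
    simp [posEquiv]

theorem not_bef_and_intra {n : ℕ} {x y : P n} (h : Bef x y) : ¬ Intra x y := by
  rintro ⟨a, rfl, rfl⟩
  exact lt_irrefl _ h

/-- Swap the two positions in each block of `s`. -/
def fl {n : ℕ} (s : Finset (Fin (n / 2))) : Perm (P n) where
  toFun x := match x with
    | Sum.inl (a, b) => Sum.inl (a, if a ∈ s then !b else b)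
    | Sum.inr c => Sum.inr c
  invFun x := match x with
    | Sum.inl (a, b) => Sum.inl (a, if a ∈ s then !b else b)
    | Sum.inr c => Sum.inr c
  left_inv x := by
    rcases x with ⟨a, b⟩ | c
    · by_cases h : a ∈ s <;> simp [h]
    · rfl
  right_inv x := by
    rcases x with ⟨a, b⟩ | c
    · by_cases h : a ∈ s <;> simp [h]
    · rfl

theorem fl_inl {n : ℕ} (s : Finset (Fin (n / 2))) (a : Fin (n / 2)) (b : Bool) :
    fl s (Sum.inl (a, b)) = Sum.inl (a, if a ∈ s then !b else b) := rfl

theorem fl_inr {n : ℕ} (s : Finset (Fin (n / 2))) (c : Fin (n % 2)) :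
    fl s (Sum.inr c) = Sum.inr c := rfl

theorem fl_fl {n : ℕ} (s : Finset (Fin (n / 2))) (x : P n) : fl s (fl s x) = x :=
  (fl s).left_inv x

theorem bef_fl {n : ℕ} (s : Finset (Fin (n / 2))) (x y : P n) :
    Bef (fl s x) (fl s y) ↔ Bef x y := by
  rcases x with ⟨a, b⟩ | c <;> rcases y with ⟨a', b'⟩ | c' <;> exact Iff.rfl

variable {V : Type*} {R : Type*} [CommRing R]

open Classical in
/-- The contribution of pairs of positions in different blocks. -/
noncomputable def FF {n : ℕ} (yy : V → V → R) (w : P n ≃ V) : R :=
  ∏ x, ∏ y, if Bef x y then yy (w x) (w y) else 1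

/-- The contribution of pairs of positions in the same block. -/
def GG {n : ℕ} (yy : V → V → R) (w : P n ≃ V) : R :=
  ∏ a, yy (w (Sum.inl (a, false))) (w (Sum.inl (a, true)))

theorem FF_fl {n : ℕ} (yy : V → V → R) (w : P n ≃ V) (s : Finset (Fin (n / 2))) :
    FF yy ((fl s).trans w) = FF yy w := by
  classical
  unfold FF
  conv_rhs => rw [← Equiv.prod_comp (fl s)]
  refine Finset.prod_congr rfl fun x _ => ?_
  conv_rhs => rw [← Equiv.prod_comp (fl s)]
  refine Finset.prod_congr rfl fun y _ => ?_
  simp only [Equiv.trans_apply, bef_fl]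

/-- Precomposition with `fl s`. -/
def preE {n : ℕ} (s : Finset (Fin (n / 2))) : (P n ≃ V) ≃ (P n ≃ V) where
  toFun w := (fl s).trans w
  invFun w := (fl s).trans w
  left_inv w := by ext x; simp [fl_fl]
  right_inv w := by ext x; simp [fl_fl]

theorem two_pow_mul_sum {n : ℕ} [Fintype V] [DecidableEq V] (yy : V → V → R) :
    (2 : R) ^ (n / 2) * ∑ w : P n ≃ V, FF yy w * GG yy w =
      ∑ w : P n ≃ V, FF yy w * ∏ a : Fin (n / 2),
        (yy (w (Sum.inl (a, false))) (w (Sum.inl (a, true))) +
          yy (w (Sum.inl (a, true))) (w (Sum.inl (a, false)))) := by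
  simp only [Finset.prod_add, Finset.mul_sum]
  rw [Finset.sum_comm]
  have key : ∀ s ∈ (univ : Finset (Fin (n / 2))).powerset,
      ∑ w : P n ≃ V, FF yy w *
        ((∏ a ∈ s, yy (w (Sum.inl (a, false))) (w (Sum.inl (a, true)))) *
        ∏ a ∈ univ \ s, yy (w (Sum.inl (a, true))) (w (Sum.inl (a, false)))) =
      ∑ w : P n ≃ V, FF yy w * GG yy w := by
    intro s _
    conv_rhs => rw [← Equiv.sum_comp (preE (V := V) (univ \ s))]
    refine Finset.sum_congr rfl fun w _ => ?_
    have h1 : FF yy (preE (univ \ s) w) = FF yy w := FF_fl yy w _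
    rw [h1]
    congr 1
    unfold GG
    rw [← Finset.prod_sdiff (Finset.subset_univ s), mul_comm]
    congr 1
    · refine Finset.prod_congr rfl fun a ha => ?_
      simp only [mem_sdiff, mem_univ, true_and] at ha
      simp [preE, fl_inl, ha]
    · refine Finset.prod_congr rfl fun a ha => ?_
      simp [preE, fl_inl, ha]
  rw [Finset.sum_congr rfl key, Finset.sum_const, Finset.card_powerset, Finset.card_univ,
    Fintype.card_fin, ← Finset.mul_sum, nsmul_eq_mul]
  push_cast
  rfl

end Positions

section Poly

variable {n : ℕ} (D : Fin n → Fin n → Prop) [DecidableRel D]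

/-- Reindexing of the sum over permutations. -/
def permE (n : ℕ) : (P n ≃ Fin n) ≃ Perm (Fin n) where
  toFun w := w.symm.trans (posEquiv n)
  invFun σ := (posEquiv n).trans σ.symm
  left_inv w := by ext x; simp
  right_inv σ := by ext x; simp

/-- The weight of an ordered pair. -/
noncomputable def wt (u v : Fin n) : ℤ[X] := if D v u then X else 1

theorem X_pow_des (w : P n ≃ Fin n) :
    (X : ℤ[X]) ^ des D (permE n w) = FF (wt D) w * GG (wt D) w := by
  classical
  unfold des
  rw [← Finset.prod_const, Finset.prod_filter, ← Finset.univ_product_univ,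
    Finset.prod_product]
  rw [← Equiv.prod_comp w]
  have h1 : ∀ y : P n, (∏ v : Fin n, if D (w y, v).1 (w y, v).2 ∧
      permE n w (w y, v).2 < permE n w (w y, v).1 then (X : ℤ[X]) else 1) =
      ∏ x : P n, if D (w y) (w x) ∧ posEquiv n x < posEquiv n y then (X : ℤ[X]) else 1 := by
    intro y
    rw [← Equiv.prod_comp w]
    refine Finset.prod_congr rfl fun x _ => ?_
    simp [permE]
  rw [Finset.prod_congr rfl fun y _ => h1 y, Finset.prod_comm]
  have h2 : ∀ x y : P n, (if D (w y) (w x) ∧ posEquiv n x < posEquiv n y then (X : ℤ[X]) else 1)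
      = (if Bef x y then wt D (w x) (w y) else 1) *
        (if Intra x y then wt D (w x) (w y) else 1) := by
    intro x y
    simp only [posEquiv_lt]
    unfold wt
    by_cases hD : D (w y) (w x)
    · by_cases hB : Bef x y
      · have := not_bef_and_intra hB
        simp [hD, hB, this]
      · by_cases hI : Intra x y <;> simp [hD, hB, hI]
    · simp [hD]
  simp only [h2, Finset.prod_mul_distrib]
  congr 1
  unfold GG
  rw [Fintype.prod_sum_type, Fintype.prod_prod_type]
  have h3 : ∀ c : Fin (n % 2), (∏ y : P n, if Intra (Sum.inr c) y then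
      wt D (w (Sum.inr c)) (w y) else 1) = 1 := by
    intro c
    apply Finset.prod_eq_one
    intro y _
    rw [if_neg]
    rintro ⟨e, h, _⟩
    simp at h
  rw [Finset.prod_congr rfl fun c _ => h3 c, Finset.prod_const_one, mul_one]
  refine Finset.prod_congr rfl fun a _ => ?_
  rw [Fintype.prod_bool]
  have h4 : (∏ y : P n, if Intra (Sum.inl (a, true)) y then
      wt D (w (Sum.inl (a, true))) (w y) else 1) = 1 := by
    apply Finset.prod_eq_one
    intro y _
    rw [if_neg]
    rintro ⟨e, h, _⟩
    simp at h
  rw [h4, one_mul]
  rw [Finset.prod_eq_single (Sum.inl (a, true))]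
  · rw [if_pos]
    exact ⟨a, rfl, rfl⟩
  · intro y _ hy
    rw [if_neg]
    rintro ⟨e, h, h'⟩
    simp only [Sum.inl.injEq, Prod.mk.injEq, and_true] at h
    subst h
    exact hy h'
  · simp

theorem eulerianPoly_eq : eulerianPoly D = ∑ w : P n ≃ Fin n, FF (wt D) w * GG (wt D) w := by
  unfold eulerianPoly
  rw [← Equiv.sum_comp (permE n)]
  exact Finset.sum_congr rfl fun w _ => X_pow_des D w

end Poly


section Orientation

variable {ι : Type*} [DecidableEq ι] {n : ℕ} {part : Fin n → ι}
  {D : Fin n → Fin n → Prop} [DecidableRel D]

/-- The number of blocks whose two vertices lie in different parts. -/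
def cr (part : Fin n → ι) (w : P n ≃ Fin n) : ℕ :=
  (univ.filter (fun a : Fin (n / 2) =>
    part (w (Sum.inl (a, false))) ≠ part (w (Sum.inl (a, true))))).card

theorem wt_add (hD : IsOrientation part D) (u v : Fin n) :
    wt D u v + wt D v u = if part u = part v then (2 : ℤ[X]) else (1 + X) := by
  unfold wt
  by_cases h : part u = part v
  · have h1 := hD.inside u v h
    have h2 := hD.inside v u h.symm
    simp [h, h1, h2]
    norm_num
  · rcases hD.across u v h with h1 | h1
    · have h2 : ¬ D v u := fun h2 => hD.asymm u v ⟨h1, h2⟩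
      simp [h, h1, h2]
    · have h2 : ¬ D u v := fun h2 => hD.asymm u v ⟨h2, h1⟩
      simp [h, h1, h2]
      ring

theorem cr_le (w : P n ≃ Fin n) : cr part w ≤ n / 2 := by
  unfold cr
  refine (Finset.card_le_univ _).trans ?_
  simp

theorem two_pow_mul_eulerianPoly (hD : IsOrientation part D) :
    (2 : ℤ[X]) ^ (n / 2) * eulerianPoly D =
      ∑ w : P n ≃ Fin n, FF (wt D) w * ((1 + X) ^ cr part w * 2 ^ (n / 2 - cr part w)) := by
  rw [eulerianPoly_eq, two_pow_mul_sum]
  refine Finset.sum_congr rfl fun w _ => ?_
  congr 1
  simp only [wt_add hD]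
  rw [Finset.prod_ite, Finset.prod_const, Finset.prod_const, mul_comm]
  have h1 : (univ.filter (fun a : Fin (n / 2) =>
    ¬ part (w (Sum.inl (a, false))) = part (w (Sum.inl (a, true))))).card = cr part w := rfl
  have h2 : (univ.filter (fun a : Fin (n / 2) =>
    part (w (Sum.inl (a, false))) = part (w (Sum.inl (a, true))))).card =
      n / 2 - cr part w := by
    have := Finset.card_filter_add_card_filter_not (s := (univ : Finset (Fin (n / 2))))
      (fun a => part (w (Sum.inl (a, false))) = part (w (Sum.inl (a, true))))
    rw [h1] at this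
    simp only [Finset.card_univ, Fintype.card_fin] at this
    omega
  rw [h1, h2]

end Orientation

section Minimal

variable {ι : Type*} [DecidableEq ι] {n : ℕ} (part : Fin n → ι)

/-- The matching of the vertices given by the blocks of positions. -/
def mt (w : P n ≃ Fin n) : Perm (Fin n) := w.permCongr (fl univ)

theorem mt_apply (w : P n ≃ Fin n) (x : P n) : mt w (w x) = w (fl univ x) := by
  simp [mt, Equiv.permCongr_apply]

theorem mt_apply' (w : P n ≃ Fin n) (u : Fin n) : w.symm (mt w u) = fl univ (w.symm u) := by
  simp [mt, Equiv.permCongr_apply]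

theorem mt_mt (w : P n ≃ Fin n) (u : Fin n) : mt w (mt w u) = u := by
  obtain ⟨x, rfl⟩ := w.surjective u
  rw [mt_apply, mt_apply, fl_fl]

theorem mt_fixed (w : P n ≃ Fin n) {u v : Fin n} (hu : mt w u = u) (hv : mt w v = v) :
    u = v := by
  obtain ⟨x, rfl⟩ := w.surjective u
  obtain ⟨y, rfl⟩ := w.surjective v
  rw [mt_apply] at hu hv
  have hu' := w.injective hu
  have hv' := w.injective hv
  rcases x with ⟨a, b⟩ | c
  · simp [fl_inl] at hu'
  · rcases y with ⟨a, b⟩ | c'
    · simp [fl_inl] at hv'
    · have : c = c' := by
        ext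
        have := c.2
        have := c'.2
        omega
      rw [this]

theorem card_special (w : P n ≃ Fin n) :
    (univ.filter (fun x => mt w x = x ∨ part (mt w x) ≠ part x)).card =
      2 * cr part w + n % 2 := by
  rw [Finset.card_filter, ← Equiv.sum_comp w, Fintype.sum_sum_type, Fintype.sum_prod_type]
  have h1 : ∀ c : Fin (n % 2), (if mt w (w (Sum.inr c)) = w (Sum.inr c) ∨
      part (mt w (w (Sum.inr c))) ≠ part (w (Sum.inr c)) then 1 else 0) = 1 := by
    intro c
    rw [mt_apply, fl_inr]
    simp
  rw [Finset.sum_congr rfl fun c _ => h1 c]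
  simp only [Finset.sum_const, Finset.card_univ, Fintype.card_fin, smul_eq_mul, mul_one]
  congr 1
  unfold cr
  rw [Finset.card_filter, Finset.mul_sum]
  refine Finset.sum_congr rfl fun a _ => ?_
  rw [Fintype.sum_bool, mt_apply, mt_apply, fl_inl, fl_inl]
  by_cases h : part (w (Sum.inl (a, false))) = part (w (Sum.inl (a, true)))
  · simp [h]
  · have h' : ¬ part (w (Sum.inl (a, true))) = part (w (Sum.inl (a, false))) :=
      fun e => h e.symm
    simp [h, h']

theorem even_nonspecial (f : Perm (Fin n)) (hf : ∀ x, f (f x) = x) (i : ι) :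
    Even ((univ.filter (fun x => part x = i)).filter
      (fun x => ¬ (f x = x ∨ part (f x) ≠ part x))).card := by
  rw [Finset.filter_filter]
  rw [← ZMod.natCast_eq_zero_iff_even, Finset.cast_card]
  refine Finset.sum_involution (fun x _ => f x) ?_ ?_ ?_ ?_
  · intro x _
    decide
  · intro x hx _ heq
    simp only [mem_filter, mem_univ, true_and, not_or] at hx
    exact hx.2.1 heq
  · intro x hx
    simp only [mem_filter, mem_univ, true_and, not_or, not_not] at hx ⊢
    refine ⟨hx.2.2.trans hx.1, ?_, ?_⟩
    · rw [hf]
      exact fun h => hx.2.1 h.symm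
    · rw [hf]
      exact hx.2.2.symm
  · intro x _
    exact hf x

theorem special_mod (f : Perm (Fin n)) (hf : ∀ x, f (f x) = x) (i : ι) :
    ((univ.filter (fun x => part x = i)).filter
      (fun x => (f x = x ∨ part (f x) ≠ part x))).card % 2 =
    (univ.filter (fun x => part x = i)).card % 2 := by
  have h1 := even_nonspecial part f hf i
  have h2 := Finset.card_filter_add_card_filter_not (s := univ.filter (fun x => part x = i))
    (fun x => (f x = x ∨ part (f x) ≠ part x))
  rw [Nat.even_iff] at h1
  omega

variable [Fintype ι]

theorem numOddParts_eq : numOddParts part =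
    ∑ i, (univ.filter (fun x => part x = i)).card % 2 := by
  unfold numOddParts
  rw [Finset.card_filter]
  refine Finset.sum_congr rfl fun i _ => ?_
  by_cases h : Odd (univ.filter (fun x => part x = i)).card
  · rw [if_pos h]
    exact (Nat.odd_iff.mp h).symm
  · rw [if_neg h]
    rw [Nat.not_odd_iff_even] at h
    exact (Nat.even_iff.mp h).symm

theorem numOddParts_mod : numOddParts part % 2 = n % 2 := by
  rw [numOddParts_eq, ← Finset.sum_nat_mod]
  have h := Finset.card_eq_sum_card_fiberwise (f := part) (s := (univ : Finset (Fin n)))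
    (t := (univ : Finset ι)) (fun x _ => by simp)
  rw [← h]
  simp

theorem numOddParts_le (w : P n ≃ Fin n) : numOddParts part ≤ 2 * cr part w + n % 2 := by
  rw [← card_special, numOddParts_eq]
  rw [Finset.card_eq_sum_card_fiberwise (f := part) (t := (univ : Finset ι))
    (fun x _ => by simp)]
  refine Finset.sum_le_sum fun i _ => ?_
  rw [← special_mod part (mt w) (mt_mt w) i, Finset.filter_comm]
  exact Nat.mod_le _ _

theorem le_cr (w : P n ≃ Fin n) : numOddParts part / 2 ≤ cr part w := by
  have h1 := numOddParts_le part w
  omega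

theorem cr_eq_iff (w : P n ≃ Fin n) :
    cr part w = numOddParts part / 2 ↔ Conf part univ (mt w) := by
  have h0 := numOddParts_le part w
  have h0' := numOddParts_mod part
  have h1 : cr part w = numOddParts part / 2 ↔
      numOddParts part = 2 * cr part w + n % 2 := by
    constructor <;> intro h <;> omega
  rw [h1, ← card_special, numOddParts_eq]
  rw [Finset.card_eq_sum_card_fiberwise (f := part) (t := (univ : Finset ι))
    (s := univ.filter (fun x => mt w x = x ∨ part (mt w x) ≠ part x))
    (fun x _ => by simp)]
  rw [Finset.sum_eq_sum_iff_of_le]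
  · constructor
    · intro h
      refine ⟨mt_mt w, by simp, fun x _ y _ hx hy => mt_fixed w hx hy, ?_⟩
      intro x _ y _ hx hy hxy
      have h2 := h (part x) (mem_univ _)
      have h3 : ((univ.filter (fun z => mt w z = z ∨ part (mt w z) ≠ part z)).filter
          (fun z => part z = part x)).card ≤ 1 := by
        rw [← h2]
        have := Nat.mod_lt (univ.filter (fun z => part z = part x)).card (by norm_num : 0 < 2)
        omega
      rw [Finset.card_le_one] at h3
      exact h3 x (by simp [hx]) y (by simp [hy, hxy])
    · rintro ⟨_, _, _, h4⟩ i _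
      rw [← special_mod part (mt w) (mt_mt w) i, Finset.filter_comm]
      apply Nat.mod_eq_of_lt
      have : ((univ.filter (fun z => mt w z = z ∨ part (mt w z) ≠ part z)).filter
          (fun z => part z = i)).card ≤ 1 := by
        rw [Finset.card_le_one]
        intro x hx y hy
        simp only [mem_filter, mem_univ, true_and] at hx hy
        exact h4 x (mem_univ _) y (mem_univ _) hx.1 hy.1 (hx.2.trans hy.2.symm)
      omega
  · intro i _
    rw [← special_mod part (mt w) (mt_mt w) i, Finset.filter_comm]
    exact Nat.mod_le _ _

end Minimal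

section Sign

variable {ι : Type*} [DecidableEq ι] {n : ℕ} {part : Fin n → ι}
  {D : Fin n → Fin n → Prop} [DecidableRel D]

/-- Sign of an ordered pair. -/
def sg (D : Fin n → Fin n → Prop) [DecidableRel D] (u v : Fin n) : ℤ := if D v u then -1 else 1

theorem sg_sq (u v : Fin n) : sg D u v * sg D u v = 1 := by
  unfold sg
  split_ifs <;> norm_num

theorem sg_mul (hD : IsOrientation part D) (u v : Fin n) :
    sg D u v * sg D v u = if part u = part v then 1 else -1 := by
  unfold sg
  by_cases h : part u = part v
  · have h1 := hD.inside u v h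
    have h2 := hD.inside v u h.symm
    simp [h, h1, h2]
  · rcases hD.across u v h with h1 | h1
    · have h2 : ¬ D v u := fun h2 => hD.asymm u v ⟨h1, h2⟩
      simp [h, h1, h2]
    · have h2 : ¬ D u v := fun h2 => hD.asymm u v ⟨h2, h1⟩
      simp [h, h1, h2]

theorem eval_FF (w : P n ≃ Fin n) : (FF (wt D) w).eval (-1) = FF (sg D) w := by
  classical
  unfold FF
  rw [Polynomial.eval_prod]
  refine Finset.prod_congr rfl fun x _ => ?_
  rw [Polynomial.eval_prod]
  refine Finset.prod_congr rfl fun y _ => ?_
  unfold wt sg
  split_ifs <;> simp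

theorem bef_fl_left {n : ℕ} (x y : P n) : Bef (fl univ x) y ↔ Bef x y := by
  rcases x with ⟨a, b⟩ | c <;> rcases y with ⟨a', b'⟩ | c' <;> exact Iff.rfl

theorem bef_fl_right {n : ℕ} (x y : P n) : Bef x (fl univ y) ↔ Bef x y := by
  rcases x with ⟨a, b⟩ | c <;> rcases y with ⟨a', b'⟩ | c' <;> exact Iff.rfl

theorem bef_irrefl {n : ℕ} (x : P n) : ¬ Bef x x := by
  rcases x with ⟨a, b⟩ | c
  · exact lt_irrefl _
  · exact fun h => h

theorem bef_asymm {n : ℕ} {x y : P n} (h : Bef x y) : ¬ Bef y x := by
  rcases x with ⟨a, b⟩ | c <;> rcases y with ⟨a', b'⟩ | c'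
  · exact lt_asymm h
  · exact fun h => h
  · exact fun _ => h
  · exact fun h => h

theorem bef_tri {n : ℕ} {x y : P n} (h1 : y ≠ x) (h2 : y ≠ fl univ x) :
    Bef x y ∨ Bef y x := by
  rcases x with ⟨a, b⟩ | c <;> rcases y with ⟨a', b'⟩ | c'
  · rcases lt_trichotomy a a' with h | h | h
    · left; exact h
    · subst h
      exfalso
      rw [fl_inl] at h2
      cases b <;> cases b' <;> simp at h1 h2
    · right; exact h
  · left; trivial
  · right; trivial
  · exfalso
    apply h1
    congr 1
    ext
    have := c.2
    have := c'.2
    omega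

theorem bef_ne_fl {n : ℕ} {x y : P n} (h : Bef x y) : fl univ x ≠ x := by
  rcases x with ⟨a, b⟩ | c
  · simp [fl_inl]
  · exact fun _ => h

open Classical in
theorem sign_inv (hD : IsOrientation part D) (w w' : P n ≃ Fin n) (hmt : mt w = mt w')
    (hc : Conf part univ (mt w)) : FF (sg D) w = FF (sg D) w' := by
  obtain ⟨h1, -, h3, h4⟩ := hc
  set f := mt w with hf
  -- rewrite both sides as products over pairs of vertices
  have key : ∀ v : P n ≃ Fin n, FF (sg D) v =
      ∏ p ∈ univ.filter (fun p : Fin n × Fin n => Bef (v.symm p.1) (v.symm p.2)),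
        sg D p.1 p.2 := by
    intro v
    unfold FF
    rw [← Equiv.prod_comp v.symm]
    rw [Finset.prod_filter, ← Finset.univ_product_univ, Finset.prod_product]
    refine Finset.prod_congr rfl fun x _ => ?_
    rw [← Equiv.prod_comp v.symm]
    refine Finset.prod_congr rfl fun y _ => ?_
    simp
  rw [key w, key w']
  set R : Fin n × Fin n → Prop := fun p => Bef (w.symm p.1) (w.symm p.2) with hR
  set R' : Fin n × Fin n → Prop := fun p => Bef (w'.symm p.1) (w'.symm p.2) with hR'
  -- facts
  have hwf : ∀ u, w.symm (f u) = fl univ (w.symm u) := mt_apply' w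
  have hwf' : ∀ u, w'.symm (f u) = fl univ (w'.symm u) := by
    intro u; rw [hmt]; exact mt_apply' w' u
  have hRl : ∀ u v, R (f u, v) ↔ R (u, v) := by
    intro u v; simp only [hR, hwf, bef_fl_left]
  have hRr : ∀ u v, R (u, f v) ↔ R (u, v) := by
    intro u v; simp only [hR, hwf, bef_fl_right]
  have hRl' : ∀ u v, R' (f u, v) ↔ R' (u, v) := by
    intro u v; simp only [hR', hwf', bef_fl_left]
  have hRr' : ∀ u v, R' (u, f v) ↔ R' (u, v) := by
    intro u v; simp only [hR', hwf', bef_fl_right]
  have hirr : ∀ u, ¬ R (u, u) := fun u => bef_irrefl _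
  have hirr' : ∀ u, ¬ R' (u, u) := fun u => bef_irrefl _
  have hne : ∀ u v, R (u, v) → v ≠ u ∧ v ≠ f u := by
    intro u v h
    constructor
    · rintro rfl; exact hirr _ h
    · rintro rfl; exact hirr _ ((hRr _ _).mp h)
  have hne' : ∀ u v, R' (u, v) → v ≠ u ∧ v ≠ f u := by
    intro u v h
    constructor
    · rintro rfl; exact hirr' _ h
    · rintro rfl; exact hirr' _ ((hRr' _ _).mp h)
  have htri : ∀ u v, v ≠ u → v ≠ f u → (R (u, v) ∨ R (v, u)) := by
    intro u v h5 h6
    apply bef_tri
    · exact fun e => h5 (w.symm.injective e)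
    · intro e
      apply h6
      apply w.symm.injective
      rw [hwf]
      exact e
  have htri' : ∀ u v, v ≠ u → v ≠ f u → (R' (u, v) ∨ R' (v, u)) := by
    intro u v h5 h6
    apply bef_tri
    · exact fun e => h5 (w'.symm.injective e)
    · intro e
      apply h6
      apply w'.symm.injective
      rw [hwf']
      exact e
  have has : ∀ u v, R (u, v) → ¬ R (v, u) := fun u v h => bef_asymm h
  have has' : ∀ u v, R' (u, v) → ¬ R' (v, u) := fun u v h => bef_asymm h
  have hfix : ∀ u v, R (u, v) → f u ≠ u := by
    intro u v h e
    have := bef_ne_fl h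
    apply this
    have h5 := hwf u
    rw [e] at h5
    exact h5.symm
  have hfix' : ∀ u v, R' (u, v) → f u ≠ u := by
    intro u v h e
    have := bef_ne_fl h
    apply this
    have h5 := hwf' u
    rw [e] at h5
    exact h5.symm
  -- split the products
  rw [← Finset.prod_filter_mul_prod_filter_not (univ.filter (fun p => R p)) (fun p => R' p)]
  rw [← Finset.prod_filter_mul_prod_filter_not (univ.filter (fun p => R' p)) (fun p => R p)]
  rw [Finset.filter_filter, Finset.filter_filter, Finset.filter_filter, Finset.filter_filter]
  have e1 : (univ.filter (fun p => R p ∧ R' p)) = univ.filter (fun p => R' p ∧ R p) := by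
    ext p; simp [and_comm]
  rw [e1]
  congr 1
  have e2 : (univ.filter (fun p => R p ∧ ¬ R' p)) =
      univ.filter (fun p : Fin n × Fin n => R (p.1, p.2) ∧ R' (p.2, p.1)) := by
    ext ⟨u, v⟩
    simp only [mem_filter, mem_univ, true_and]
    constructor
    · rintro ⟨h5, h6⟩
      refine ⟨h5, ?_⟩
      obtain ⟨h7, h8⟩ := hne u v h5
      rcases htri' u v h7 h8 with h9 | h9
      · exact absurd h9 h6
      · exact h9
    · rintro ⟨h5, h6⟩
      exact ⟨h5, has' _ _ h6⟩
  have e3 : ∏ p ∈ univ.filter (fun p => R' p ∧ ¬ R p), sg D p.1 p.2 =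
      ∏ p ∈ univ.filter (fun p : Fin n × Fin n => R (p.1, p.2) ∧ R' (p.2, p.1)),
        sg D p.2 p.1 := by
    refine Finset.prod_nbij' (fun p => (p.2, p.1)) (fun p => (p.2, p.1)) ?_ ?_ ?_ ?_ ?_
    · rintro ⟨u, v⟩ h
      simp only [mem_filter, mem_univ, true_and] at h ⊢
      obtain ⟨h5, h6⟩ := h
      refine ⟨?_, h5⟩
      obtain ⟨h7, h8⟩ := hne' u v h5
      rcases htri u v h7 h8 with h9 | h9
      · exact absurd h9 h6
      · exact h9
    · rintro ⟨u, v⟩ h
      simp only [mem_filter, mem_univ, true_and] at h ⊢
      exact ⟨h.2, has _ _ h.1⟩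
    · rintro ⟨u, v⟩ _
      rfl
    · rintro ⟨u, v⟩ _
      rfl
    · rintro ⟨u, v⟩ _
      rfl
  rw [e2, e3]
  -- the product of all `sg u v * sg v u` over inverted pairs is one
  have e4 : ∏ p ∈ univ.filter (fun p : Fin n × Fin n => R (p.1, p.2) ∧ R' (p.2, p.1)),
      (sg D p.1 p.2 * sg D p.2 p.1) = 1 := by
    refine Finset.prod_involution
      (fun p _ => if part (f p.1) = part p.1 ∨ part (f p.2) ≠ part p.2 then (f p.1, p.2)
        else (p.1, f p.2)) ?_ ?_ ?_ ?_
    · rintro ⟨u, v⟩ h
      simp only [mem_filter, mem_univ, true_and] at h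
      obtain ⟨h5, h6⟩ := h
      have hu : f u ≠ u := hfix _ _ h5
      have hv : f v ≠ v := hfix' _ _ h6
      obtain ⟨h7, h8⟩ := hne _ _ h5
      rw [sg_mul hD]
      split_ifs with h9 h10 h11 <;> rw [sg_mul hD]
      · simp only at h9 h10 ⊢
        rcases h10 with h10 | h10
        · rw [if_pos (h10.trans h9)]; rfl
        · by_cases hsu : part (f u) = part u
          · rw [if_pos (hsu.trans h9)]; rfl
          · exfalso
            apply h7
            exact (h4 u (mem_univ _) v (mem_univ _) (Or.inr hsu) (Or.inr h10) h9).symm
      · simp only at h9 h10 ⊢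
        push Not at h10
        rw [if_pos (h9.trans h10.2.symm)]; rfl
      · simp only at h9 h11 ⊢
        rcases h11 with h11 | h11
        · rw [if_neg (fun e => h9 (h11.symm.trans e))]; rfl
        · by_cases hsu : part (f u) = part u
          · rw [if_neg (fun e => h9 (hsu.symm.trans e))]; rfl
          · rw [if_neg]
            · rfl
            · intro e
              apply h8
              refine (h4 (f u) (mem_univ _) v (mem_univ _) (Or.inr ?_) (Or.inr h11) e).symm
              rw [h1]
              exact fun e => hsu e.symm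
      · simp only at h9 h11 ⊢
        push Not at h11
        rw [if_neg (fun e => h9 (e.trans h11.2))]; rfl
    · rintro ⟨u, v⟩ h _ 
      simp only [mem_filter, mem_univ, true_and] at h
      obtain ⟨h5, h6⟩ := h
      have hu : f u ≠ u := hfix _ _ h5
      have hv : f v ≠ v := hfix' _ _ h6
      simp only
      split_ifs with h9
      · intro e
        exact hu (congrArg Prod.fst e)
      · intro e
        exact hv (congrArg Prod.snd e)
    · rintro ⟨u, v⟩ h
      simp only [mem_filter, mem_univ, true_and] at h ⊢
      obtain ⟨h5, h6⟩ := h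
      split_ifs with h9
      · exact ⟨(hRl _ _).mpr h5, (hRr' _ _).mpr h6⟩
      · exact ⟨(hRr _ _).mpr h5, (hRl' _ _).mpr h6⟩
    · rintro ⟨u, v⟩ h
      simp only
      by_cases h9 : part (f u) = part u ∨ part (f v) ≠ part v
      · simp only [if_pos h9]
        have h10 : part (f (f u)) = part (f u) ∨ part (f v) ≠ part v := by
          rcases h9 with h9 | h9
          · left; rw [h1, h9]
          · right; exact h9
        rw [if_pos h10, h1]
      · simp only [if_neg h9]
        push Not at h9
        have h10 : ¬ (part (f u) = part u ∨ part (f (f v)) ≠ part (f v)) := by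
          push Not
          refine ⟨h9.1, ?_⟩
          rw [h1, h9.2]
        rw [if_neg h10, h1]
  rw [Finset.prod_mul_distrib] at e4
  have e5 : (∏ p ∈ univ.filter (fun p : Fin n × Fin n => R (p.1, p.2) ∧ R' (p.2, p.1)),
      sg D p.2 p.1) * (∏ p ∈ univ.filter (fun p : Fin n × Fin n => R (p.1, p.2) ∧ R' (p.2, p.1)),
      sg D p.2 p.1) = 1 := by
    rw [← Finset.prod_mul_distrib]
    apply Finset.prod_eq_one
    intro p _
    exact sg_sq _ _
  set a := ∏ p ∈ univ.filter (fun p : Fin n × Fin n => R (p.1, p.2) ∧ R' (p.2, p.1)),
      sg D p.1 p.2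
  set b := ∏ p ∈ univ.filter (fun p : Fin n × Fin n => R (p.1, p.2) ∧ R' (p.2, p.1)),
      sg D p.2 p.1
  calc a = a * (b * b) := by rw [e5, mul_one]
    _ = (a * b) * b := by ring
    _ = b := by rw [e4, one_mul]

theorem FF_sg_sq (w : P n ≃ Fin n) : FF (sg D) w = 1 ∨ FF (sg D) w = -1 := by
  classical
  have : FF (sg D) w * FF (sg D) w = 1 := by
    unfold FF
    rw [← Finset.prod_mul_distrib]
    apply Finset.prod_eq_one
    intro x _
    rw [← Finset.prod_mul_distrib]
    apply Finset.prod_eq_one
    intro y _
    split_ifs
    · exact sg_sq _ _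
    · rfl
  exact mul_self_eq_one_iff.mp this

end Sign

section Fibres

variable {ι : Type*} [DecidableEq ι] {n : ℕ} {part : Fin n → ι}
  {D : Fin n → Fin n → Prop} [DecidableRel D]

theorem cycleType_of_involution {V : Type*} [Fintype V] [DecidableEq V] (f : Perm V)
    (hf : ∀ x, f (f x) = x) :
    f.cycleType = Multiset.replicate f.cycleType.card 2 ∧
      2 * f.cycleType.card = f.support.card := by
  have h1 : f.cycleType = Multiset.replicate f.cycleType.card 2 := by
    rw [Multiset.eq_replicate]
    refine ⟨rfl, ?_⟩
    intro b hb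
    have h2 := Equiv.Perm.two_le_of_mem_cycleType hb
    have h3 := Equiv.Perm.dvd_of_mem_cycleType hb
    have h4 : orderOf f ∣ 2 := by
      apply orderOf_dvd_of_pow_eq_one
      ext x
      simp [pow_two, hf]
    have h5 := Nat.le_of_dvd (by norm_num) (h3.trans h4)
    omega
  refine ⟨h1, ?_⟩
  rw [← Equiv.Perm.sum_cycleType, h1]
  simp [mul_comm]

theorem support_card {f : Perm (Fin n)} (hf : ∀ x, f (f x) = x)
    (h1 : ∀ x y, f x = x → f y = y → x = y) : f.support.card = 2 * (n / 2) := by
  have h2 := (cycleType_of_involution f hf).2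
  have h3 : (univ.filter (fun x => f x = x)).card ≤ 1 := by
    rw [Finset.card_le_one]
    intro x hx y hy
    simp only [mem_filter, mem_univ, true_and] at hx hy
    exact h1 x y hx hy
  have h4 := Finset.card_filter_add_card_filter_not (s := (univ : Finset (Fin n)))
    (fun x => f x = x)
  have h5 : (univ.filter (fun x => ¬ f x = x)) = f.support := by
    ext x
    simp [Equiv.Perm.mem_support]
  rw [h5] at h4
  simp only [Finset.card_univ, Fintype.card_fin] at h4
  omega

theorem exists_mt {f : Perm (Fin n)} (hf : ∀ x, f (f x) = x)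
    (h1 : ∀ x y, f x = x → f y = y → x = y) : ∃ w : P n ≃ Fin n, mt w = f := by
  set w1 := posEquiv n
  have h2 := cycleType_of_involution f hf
  have h3 := cycleType_of_involution (mt w1) (mt_mt w1)
  have h4 := support_card hf h1
  have h5 := support_card (mt_mt w1) (fun x y hx hy => mt_fixed w1 hx hy)
  have h6 : (mt w1).cycleType.card = f.cycleType.card := by omega
  have h7 : IsConj (mt w1) f := by
    rw [Equiv.Perm.isConj_iff_cycleType_eq, h2.1, h3.1, h6]
  rw [isConj_iff] at h7
  obtain ⟨g, hg⟩ := h7
  refine ⟨w1.trans g, ?_⟩
  rw [← hg]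
  ext x
  simp [mt, Equiv.permCongr_apply]

theorem sum_fibre (hD : IsOrientation part D) {f : Perm (Fin n)} (hf : Conf part univ f) :
    ∃ s : ℤ, (s = 1 ∨ s = -1) ∧
      ∑ w ∈ (univ : Finset (P n ≃ Fin n)) with mt w = f, FF (sg D) w =
      ((univ : Finset (Perm (P n))).filter
        (fun h => ∀ x, h (fl univ x) = fl univ (h x))).card * s := by
  obtain ⟨w0, hw0⟩ := exists_mt (f := f) hf.1
    (fun x y hx hy => hf.2.2.1 x (mem_univ _) y (mem_univ _) hx hy)
  refine ⟨FF (sg D) w0, FF_sg_sq w0, ?_⟩
  have h1 : ∀ w ∈ (univ : Finset (P n ≃ Fin n)).filter (fun w => mt w = f),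
      FF (sg D) w = FF (sg D) w0 := by
    intro w hw
    simp only [mem_filter, mem_univ, true_and] at hw
    apply sign_inv (part := part) hD
    · rw [hw, hw0]
    · rw [hw]; exact hf
  rw [Finset.sum_congr rfl h1, Finset.sum_const, nsmul_eq_mul]
  congr 2
  refine Finset.card_nbij' (fun w => w.trans w0.symm) (fun h => h.trans w0) ?_ ?_ ?_ ?_
  · intro w hw
    simp only [coe_filter, mem_univ, true_and, Set.mem_ofPred_eq] at hw ⊢
    intro x
    simp only [Equiv.trans_apply]
    rw [← mt_apply' w0, hw0, ← hw, mt_apply]
  · intro h hh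
    simp only [coe_filter, mem_univ, true_and, Set.mem_ofPred_eq] at hh ⊢
    ext u
    obtain ⟨x, rfl⟩ := (h.trans w0).surjective u
    rw [mt_apply]
    simp only [Equiv.trans_apply]
    rw [hh, ← mt_apply w0, hw0]
  · intro w _
    ext x
    simp
  · intro h _
    ext x
    simp

theorem sum_minimal_ne_zero [Fintype ι] (hD : IsOrientation part D) :
    ∑ w ∈ (univ : Finset (P n ≃ Fin n)) with cr part w = numOddParts part / 2,
      FF (sg D) w ≠ 0 := by
  classical
  have h1 : ((univ : Finset (P n ≃ Fin n)).filter
      (fun w => cr part w = numOddParts part / 2)) =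
      (univ : Finset (P n ≃ Fin n)).filter (fun w => Conf part univ (mt w)) := by
    ext w
    simp [cr_eq_iff]
  rw [h1]
  rw [← Finset.sum_fiberwise_of_maps_to (g := fun w => mt w)
    (t := univ.filter (fun f : Perm (Fin n) => Conf part univ f)) (by
      intro w hw
      simpa using hw)]
  have h2 : ∀ f : Perm (Fin n), Conf part univ f → ∃ s : ℤ, (s = 1 ∨ s = -1) ∧
      ∑ w ∈ ((univ : Finset (P n ≃ Fin n)).filter (fun w => Conf part univ (mt w))).filter
        (fun w => mt w = f), FF (sg D) w =
      ((univ : Finset (Perm (P n))).filter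
        (fun h => ∀ x, h (fl univ x) = fl univ (h x))).card * s := by
    intro f hf
    obtain ⟨s, hs, hs'⟩ := sum_fibre hD hf
    refine ⟨s, hs, ?_⟩
    rw [← hs', Finset.filter_filter]
    refine Finset.sum_congr ?_ fun _ _ => rfl
    ext w
    simp only [mem_filter, mem_univ, true_and]
    constructor
    · exact fun h => h.2
    · rintro rfl
      exact ⟨hf, rfl⟩
  choose! s hs hs' using h2
  rw [Finset.sum_congr rfl (fun f hf => hs' f (by simpa using hf)), ← Finset.mul_sum]
  apply mul_ne_zero
  · rw [Nat.cast_ne_zero]
    apply Finset.card_ne_zero_of_mem (a := (1 : Perm (P n)))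
    simp
  · intro h0
    have h3 : ((∑ f ∈ univ.filter (fun f : Perm (Fin n) => Conf part univ f), s f : ℤ) :
        ZMod 2) = 1 := by
      rw [Int.cast_sum]
      have h4 : ∀ f ∈ univ.filter (fun f : Perm (Fin n) => Conf part univ f),
          ((s f : ℤ) : ZMod 2) = 1 := by
        intro f hf
        rcases hs f (by simpa using hf) with h | h
        · rw [h]; decide
        · rw [h]; decide
      rw [Finset.sum_congr rfl h4, Finset.sum_const, nsmul_eq_mul, mul_one]
      rw [ZMod.natCast_eq_one_iff_odd]
      exact odd_conf part n univ (by simp)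
    rw [h0] at h3
    revert h3
    decide

end Fibres

theorem rootMultiplicity_eq {n : ℕ} {ι : Type*} [Fintype ι] [DecidableEq ι]
    (part : Fin n → ι) (D : Fin n → Fin n → Prop) [DecidableRel D]
    (hD : IsOrientation part D) :
    (eulerianPoly D).rootMultiplicity (-1) = numOddParts part / 2 := by
  classical
  set m := numOddParts part / 2 with hm
  -- the quotient
  set Q : ℤ[X] := ∑ w : P n ≃ Fin n,
    FF (wt D) w * ((1 + X) ^ (cr part w - m) * 2 ^ (n / 2 - cr part w)) with hQ
  have h1 : (2 : ℤ[X]) ^ (n / 2) * eulerianPoly D = Q * (X - C (-1)) ^ m := by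
    rw [two_pow_mul_eulerianPoly hD, hQ, Finset.sum_mul]
    refine Finset.sum_congr rfl fun w _ => ?_
    have h2 : (1 + X : ℤ[X]) ^ cr part w = (1 + X) ^ (cr part w - m) * (1 + X) ^ m := by
      rw [← pow_add]
      congr 1
      have := le_cr part w
      omega
    have h3 : (X - C (-1) : ℤ[X]) = 1 + X := by
      simp
      ring
    rw [h2, h3]
    ring
  have h4 : Q.eval (-1) ≠ 0 := by
    have h5 : Q.eval (-1) = 2 ^ (n / 2 - m) *
        ∑ w ∈ (univ : Finset (P n ≃ Fin n)) with cr part w = m, FF (sg D) w := by
      rw [hQ, Polynomial.eval_finsetSum, Finset.sum_filter, Finset.mul_sum]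
      refine Finset.sum_congr rfl fun w _ => ?_
      rw [Polynomial.eval_mul, eval_FF]
      by_cases h6 : cr part w = m
      · simp [h6]
        ring
      · have h7 : cr part w - m ≠ 0 := by
          have := le_cr part w
          omega
        rw [if_neg h6]
        simp [h7]
    rw [h5]
    exact mul_ne_zero (pow_ne_zero _ (by norm_num)) (sum_minimal_ne_zero hD)
  have hQ0 : Q ≠ 0 := by
    rintro h
    rw [h] at h4
    simp at h4
  have h8 : rootMultiplicity (-1) Q = 0 := by
    rw [Polynomial.rootMultiplicity_eq_zero]
    exact h4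
  have h9 : rootMultiplicity (-1) ((2 : ℤ[X]) ^ (n / 2) * eulerianPoly D) = m := by
    rw [h1, Polynomial.rootMultiplicity_mul_X_sub_C_pow hQ0, h8, zero_add]
  have h10 : (2 : ℤ[X]) ^ (n / 2) * eulerianPoly D ≠ 0 := by
    rw [h1]
    exact mul_ne_zero hQ0 (pow_ne_zero _ (Polynomial.X_sub_C_ne_zero _))
  rw [Polynomial.rootMultiplicity_mul h10] at h9
  have h11 : (2 : ℤ[X]) ^ (n / 2) = C (2 ^ (n / 2)) := by simp
  rw [h11, Polynomial.rootMultiplicity_C, zero_add] at h9
  exact h9

/-- **Theorem.** Let `D` be any orientation of a complete multipartite graph on the vertex set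
`Fin n`, whose parts are the nonempty fibres of `part`, and let `r` be the number of parts of
odd size.  Then `-1` is a root of multiplicity exactly `⌊r/2⌋` of the Eulerian polynomial
`A_D(t)` (regarded as a complex polynomial). -/
theorem result {n : ℕ} {ι : Type*} [Fintype ι] [DecidableEq ι]
    (part : Fin n → ι) (D : Fin n → Fin n → Prop) [DecidableRel D]
    (hD : IsOrientation part D) :
    ((eulerianPoly D).map (Int.castRingHom ℂ)).rootMultiplicity (-1) =
      numOddParts part / 2 := by
  rw [← rootMultiplicity_eq part D hD]
  have h := Polynomial.eq_rootMultiplicity_map (p := eulerianPoly D)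
    (f := Int.castRingHom ℂ) Int.cast_injective (-1)
  rw [h]
  simp

end Pool.Agent.Results.MP_a2af9e_co.EulerianMultipartite
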